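import Mathlib
import Pool.Agent.Lib.MP_f58a57_nt.Defs
import Pool.Agent.Lib.MP_f58a57_nt.FK.K029

/-!
# MP_f58a57_nt: all points and all tuples, two algebraically independent values

Let `z_1, ..., z_n` be points of the upper half plane in different `GL₂(ℚ)`-orbits with `j'(z_i) ≠ 0`, `m_1` of them nonspecial and
`m_2` of them special. Then `trdeg ℚ(z, j(z), j'(z), j''(z)) ≥ min(2, 3 m_1 + m_2)`: the inequality of Q1 with the right side
`3 m_1 + m_2` replaced by `min(2, 3 m_1 + m_2)`, without any hypothesis of algebraicity. Moreover the values of `j'` at any two of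
the special points are algebraically independent.
-/

open Pool.Agent.MSD

theorem Pool.Agent.Results.MP_f58a57_nt.AllTuples.result {n : ℕ} (z : Fin n → ℂ) (hz : ∀ i, 0 < (z i).im)
    (hind : ∀ i k, i ≠ k → ¬ GEquiv (z i) (z k)) (hj : ∀ i, deriv jj (z i) ≠ 0) :
    ((min 2 (3 * Nat.card {i // ¬ IsSpecial (z i)} + Nat.card {i // IsSpecial (z i)}) : ℕ) : Cardinal) ≤
      Algebra.trdeg ℚ (IntermediateField.adjoin ℚ
        (⋃ i, {z i, jj (z i), deriv jj (z i), deriv (deriv jj) (z i)} : Set ℂ)) ∧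
    ∀ i k, i ≠ k → IsSpecial (z i) → IsSpecial (z k) →
      AlgebraicIndependent ℚ ![deriv jj (z i), deriv jj (z k)] :=
  ⟨Pool.Agent.MSW.all_tuples z hz hind hj, fun i k hik hi hk =>
    Pool.Agent.MSP.pairs (z i) (z k) (hz i) (hz k) hi hk (hind i k hik) (hj i) (hj k)⟩
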