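import Mathlib
import Pool.Agent.Lib.MP_f58a57_nt.Defs
import Pool.Agent.Lib.MP_f58a57_nt.FK.K047

/-!
# MP_f58a57_nt: cubic points

Let `z` be a cubic irrationality in the upper half plane with `j'(z) ≠ 0`. Then `j(z), j'(z), j''(z)` are algebraically independent,
so `trdeg ℚ(z, j(z), j'(z), j''(z)) = 3`: the inequality of Q1 for `n = 1` holds in full at every algebraic point of degree three.
More generally the bound `3` holds for every tuple which has an entry of this kind in the upper half plane.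
-/

open Pool.Agent.MSD

theorem Pool.Agent.Results.MP_f58a57_nt.CubicPoints.result {n : ℕ} (z : Fin n → ℂ) (i : Fin n) (hz : 0 < (z i).im)
    (hj : deriv jj (z i) ≠ 0) (hd : (minpoly ℚ (z i)).natDegree = 3) :
    (3 : Cardinal) ≤ Algebra.trdeg ℚ (IntermediateField.adjoin ℚ
      (⋃ i, {z i, jj (z i), deriv jj (z i), deriv (deriv jj) (z i)} : Set ℂ)) :=
  Pool.Agent.MSL.cubic_trdeg (z i) hz hj hd _ (Set.mem_iUnion.2 ⟨i, Or.inr (Or.inl rfl)⟩)
    (Set.mem_iUnion.2 ⟨i, Or.inr (Or.inr (Or.inl rfl))⟩) (Set.mem_iUnion.2 ⟨i, Or.inr (Or.inr (Or.inr rfl))⟩)
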