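import Mathlib
import Pool.Agent.Lib.MP_f58a57_nt.Defs
import Pool.Agent.Lib.MP_f58a57_nt.FK.K061
import Pool.Agent.Lib.MP_f58a57_nt.M00_Defs
import Pool.Agent.Lib.MP_f58a57_nt.M20_Explicit

/-!
# MP_f58a57_nt: the modular Schanuel inequality with derivatives and special points for the fields `K(t_1, ..., t_s)`

Let `t = (t_1, ..., t_s)` be a hyper-Liouville system of real numbers, grouped in blocks `b`, and let `F_b` be the field
generated over `ℚ(√(-d_b))` by the `t_l` of the block `b`. The inequality
`trdeg ℚ(z, j(z), j'(z), j''(z)) ≥ 3 m_1 + m_2` of Q1 holds for every `GL₂(ℚ)`-independent tuple `z` in the upper half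
plane, of any length, whose entries lie in the fields `F_b`, when each field that is used contains a nonspecial entry. In
particular (one block) it holds for all tuples of points of `K(t_1, ..., t_s)` with at least one nonspecial entry, `K` an
imaginary quadratic field. The first part of the statement gives explicit hyper-Liouville systems of every length:
`t_l = ∑_k 1 / tow (2 (s (k + 1) - l))` with `tow = 1, 2, 4, 16, 65536, ...`.
-/

open Pool.Agent.MSD

theorem Pool.Agent.Results.MP_f58a57_nt.Fields.result :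
    (∀ s : ℕ, HyperLiouville (towSys s)) ∧
    ∀ (s r n : ℕ) (bl : Fin s → Fin r) (d : Fin r → ℕ) (_ : ∀ b, 0 < d b) (t : Fin s → ℝ) (_ : HyperLiouville t)
      (z : Fin n → ℂ) (_ : ∀ i, 0 < (z i).im) (_ : ∀ i j, i ≠ j → ¬ GEquiv (z i) (z j))
      (_ : ∀ i, deriv jj (z i) ≠ 0)
      (_ : ∀ i, ∃ b, z i ∈ FB bl d t b ∧ ∃ k, z k ∈ FB bl d t b ∧ ¬ IsSpecial (z k)),
      ((3 * Nat.card {i // ¬ IsSpecial (z i)} + Nat.card {i // IsSpecial (z i)} : ℕ) : Cardinal) ≤
        Algebra.trdeg ℚ (IntermediateField.adjoin ℚ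
          (⋃ i, {z i, jj (z i), deriv jj (z i), deriv (deriv jj) (z i)} : Set ℂ)) :=
  ⟨towSys_hyperLiouville, fun _ _ _ bl d hd t ht z hz hind hj hor => main2 bl d hd t ht z hz hind hj hor⟩
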