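import Mathlib
import Pool.Agent.Lib.MP_f58a57_nt.Defs
import Pool.Agent.Lib.MP_f58a57_nt.LK.K015
import Pool.Agent.Lib.MP_f58a57_nt.LK.K024
import Pool.Agent.Lib.MP_f58a57_nt.LK.K029
import Pool.Agent.Lib.MP_f58a57_nt.LK.K033

/-!
# MP_f58a57_nt: large transcendence degree for points of a quartic field

Let `K` be a subfield of `ℂ` of degree `4` over `ℚ`, not contained in `ℝ`, and `s = [K K̄ : K]`, where `K̄` is the complex conjugate field; `s` is `1`, `2` or `3`,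
and `s = 1` if and only if `K` contains a real quadratic field. Let `z_1, ..., z_n` be points of `K` in the upper half plane which lie in different `GL₂(ℚ)`-orbits, none
of them special, with `j'(z_i) ≠ 0`. Then `trdeg ℚ(z, j(z), j'(z), j''(z)) ≥ 2 s ⌊(n-1)/s⌋ + 1` (`n ≥ 1`), in particular `≥ 2n - (2s - 1) ≥ 2n - 5`.
-/

open Pool.Agent.MSD

theorem Pool.Agent.LT.ZR.nq_of (z : ℂ) (h : ¬ IsSpecial z) : Pool.Agent.LT.NQ z := by
  intro a b c habc
  by_contra hne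
  apply h
  have ha : (a.den : ℂ) ≠ 0 := by exact_mod_cast a.den_ne_zero
  have hb : (b.den : ℂ) ≠ 0 := by exact_mod_cast b.den_ne_zero
  have hc : (c.den : ℂ) ≠ 0 := by exact_mod_cast c.den_ne_zero
  have ea : (a : ℂ) = a.num / a.den := by exact_mod_cast (Rat.num_div_den a).symm
  have eb : (b : ℂ) = b.num / b.den := by exact_mod_cast (Rat.num_div_den b).symm
  have ec : (c : ℂ) = c.num / c.den := by exact_mod_cast (Rat.num_div_den c).symm
  refine ⟨a.num * b.den * c.den, b.num * a.den * c.den, c.num * a.den * b.den, ?_, ?_⟩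
  · rintro ⟨h1, h2, h3⟩
    apply hne
    have da : (a.den : ℤ) ≠ 0 := by exact_mod_cast a.den_ne_zero
    have db : (b.den : ℤ) ≠ 0 := by exact_mod_cast b.den_ne_zero
    have dc : (c.den : ℤ) ≠ 0 := by exact_mod_cast c.den_ne_zero
    refine ⟨?_, ?_, ?_⟩
    · simpa [da, db, dc] using h1
    · simpa [da, db, dc] using h2
    · simpa [da, db, dc] using h3
  · rw [ea, eb, ec] at habc
    field_simp at habc
    push_cast
    linear_combination habc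

theorem Pool.Agent.LT.ZR.gequiv_of (z w : ℂ) (h : Pool.Agent.LT.GEq z w) : GEquiv z w := by
  obtain ⟨a, b, c, d, h1, h2, h3⟩ := h
  exact ⟨a, b, c, d, by exact_mod_cast h1, h2, h3⟩

theorem Pool.Agent.Results.MP_f58a57_nt.QuarticFields.result (K : Subfield ℂ) (hdeg : Module.finrank ℚ K = 4)
    (hnr : ∃ x ∈ K, x.im ≠ 0) {n : ℕ} (z : Fin n → ℂ) (hzK : ∀ i, z i ∈ K) (hz : ∀ i, 0 < (z i).im)
    (hind : ∀ i k, i ≠ k → ¬ GEquiv (z i) (z k)) (hns : ∀ i, ¬ IsSpecial (z i)) (hj : ∀ i, deriv jj (z i) ≠ 0) :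
    ∃ s : ℕ, (s = 1 ∨ s = 2 ∨ s = 3) ∧ Module.finrank ℚ ↥(K ⊔ K.map (starRingEnd ℂ)) = 4 * s ∧
      (s = 1 ↔ ∃ Δ : ℕ, ¬ IsSquare Δ ∧ ((Real.sqrt Δ : ℝ) : ℂ) ∈ K) ∧
      (1 ≤ n → ((2 * s * ((n - 1) / s) + 1 : ℕ) : Cardinal) ≤ Algebra.trdeg ℚ (IntermediateField.adjoin ℚ
        (⋃ i, {z i, jj (z i), deriv jj (z i), deriv (deriv jj) (z i)} : Set ℂ))) ∧
      ((2 * n - (2 * s - 1) : ℕ) : Cardinal) ≤ Algebra.trdeg ℚ (IntermediateField.adjoin ℚ
        (⋃ i, {z i, jj (z i), deriv jj (z i), deriv (deriv jj) (z i)} : Set ℂ)) :=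
  Pool.Agent.LT.ZA.main_of2 Pool.Agent.LT.thmA Pool.Agent.LT.thmC Pool.Agent.LT.thmD1G
    (Pool.Agent.LT.thmD2G Pool.Agent.LT.thmB2 Pool.Agent.LT.thmFlagG) Pool.Agent.LT.thmE K hdeg hnr n z hzK hz
    (fun i => Pool.Agent.LT.ZR.nq_of _ (hns i)) (fun i k hik h => hind i k hik (Pool.Agent.LT.ZR.gequiv_of _ _ h)) hj
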